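import Pool.Agent.Lib.MP_fa837f_gt.P2.Iface

/-!
Row DC: concavity of the logarithm along lines.
-/

set_option autoImplicit false

open MeasureTheory Matrix Set Filter Topology

namespace Pool.Agent.Lib.MP_fa837f_gt.P2.H92

/-- The integral of the density is positive. -/
theorem zpos (hSr : SrStatement) (hIn : InStatement) {n k : ℕ} (S : Sys n k) :
    0 < ∫ y, S.rho y := by
  have hR := hSr n k S (fun _ => 0)
  have hint : Integrable fun y => S.rho y := by
    have h := hIn n k S (fun _ => 1) continuous_const ⟨1, 0, fun y => by simp⟩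
    simpa using h
  refine (integral_pos_iff_support_of_nonneg (fun y => (hR.rhopos y).le) hint).2 ?_
  have : Function.support (fun y => S.rho y) = univ := by
    ext y
    simp [(hR.rhopos y).ne']
  rw [this]
  exact isOpen_univ.measure_pos volume univ_nonempty

/-- DC. -/
theorem dc_st (hSr : SrStatement) (hIn : InStatement) (hEf : EfStatement) (hDv : DvStatement)
    (hKl : KlStatement) : DcStatement := by
  intro n k m hm δ h0 h1 η hη w τ
  set S : ℝ → Sys n k := fam m hm δ h0 h1 η hη w τ with hS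
  set Z : ℝ → ℝ := fun u => ∫ y, (S u).rho y with hZ
  set W : ℝ → ℝ := fun u => ∫ y, aa m τ ((S u).r y) * (S u).rho y with hW
  set V : ℝ → ℝ := fun u => ∫ y, (tt m τ ((S u).r y) - (S u).Yd τ y
    - 1 / 2 * aa m τ ((S u).r y) ^ 2) * (S u).rho y with hV
  set F : ℝ → ℝ := fun u => F0 m (fun i => (1 + δ) * Real.exp ((1 + δ) * (w i + u * τ i)))
      (fun i => η * Real.exp (-(w i + u * τ i))) δ with hF
  have hZpos : ∀ u, 0 < Z u := fun u => zpos hSr hIn (S u)
  have hZF : ∀ u, Z u = gint (1 : Matrix (Fin k) (Fin k) ℝ) ^ 2 * F u := fun u =>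
    hKl n k (S u)
  have hZd : ∀ u, HasDerivAt Z (-(1 / 2 * W u)) u := fun u =>
    (hDv n k m hm δ h0 h1 η hη w τ u).1
  have hWd : ∀ u, HasDerivAt W (V u) u := fun u =>
    (hDv n k m hm δ h0 h1 η hη w τ u).2
  have hmain : ∀ u, 0 ≤ Z u * V u + 1 / 2 * W u ^ 2 := by
    intro u
    have h := hEf n k (S u) τ
    have hV2 : (∫ y, (aa m τ ((S u).r y) ^ 2 - 2 * tt m τ ((S u).r y) + 2 * (S u).Yd τ y) *
        (S u).rho y) = -(2 * V u) := by
      rw [hV]
      simp only
      rw [← integral_const_mul, ← integral_neg]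
      congr 1
      ext y
      ring
    have h' : Z u * (-(2 * V u)) ≤ W u ^ 2 := by
      rw [← hV2]
      exact h
    nlinarith
  have hFpos : ∀ u, 0 < F u := by
    intro u
    have h := hZpos u
    rw [hZF u] at h
    exact pos_of_mul_pos_right h (sq_nonneg _)
  have hg : (gint (1 : Matrix (Fin k) (Fin k) ℝ) ^ 2 : ℝ) ≠ 0 := by
    intro h
    have h2 := hZpos 0
    rw [hZF 0, h, zero_mul] at h2
    exact lt_irrefl _ h2
  refine ⟨hFpos, ?_⟩
  have hlog : ∀ u, HasDerivAt (fun u => Real.log (Z u)) (-(1 / 2 * W u) / Z u) u := fun u =>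
    (hZd u).log (hZpos u).ne'
  have hlogF : (fun u => Real.log (F u)) = fun u => Real.log (Z u)
      - Real.log (gint (1 : Matrix (Fin k) (Fin k) ℝ) ^ 2) := by
    ext u
    rw [hZF u, Real.log_mul hg (hFpos u).ne']
    ring
  have hconc : ConcaveOn ℝ univ fun u => Real.log (Z u) := by
    have hderiv : deriv (fun u => Real.log (Z u)) = fun u => -(1 / 2 * W u) / Z u :=
      funext fun u => (hlog u).deriv
    refine Antitone.concaveOn_univ_of_deriv (fun u => (hlog u).differentiableAt) ?_
    rw [hderiv]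
    have hd : ∀ u, HasDerivAt (fun u => -(1 / 2 * W u) / Z u)
        ((-(1 / 2 * V u) * Z u - -(1 / 2 * W u) * -(1 / 2 * W u)) / Z u ^ 2) u := fun u =>
      ((hWd u).const_mul (1 / 2)).neg.div (hZd u) (hZpos u).ne'
    refine antitone_of_deriv_nonpos (fun u => (hd u).differentiableAt) fun u => ?_
    rw [(hd u).deriv]
    refine div_nonpos_of_nonpos_of_nonneg ?_ (sq_nonneg _)
    nlinarith [hmain u]
  show ConcaveOn ℝ univ (fun u => Real.log (F u))
  rw [hlogF]
  exact hconc.sub (convexOn_const _ convex_univ)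

end Pool.Agent.Lib.MP_fa837f_gt.P2.H92
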